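import Mathlib
import Pool.Agent.H23.Rank
import Pool.Agent.H62.HE.Defs

/-!
# Module CL: the class group relation
-/

open Polynomial nonZeroDivisors

namespace Pool.Agent.H62.HE

universe u

/-! ## ring homs between the rings `HR` -/

section hom

variable {K L : Type u} [Field K] [Field L]

/-- coefficientwise ring hom -/
noncomputable def mapHR (ψ : K →+* L) (f : K[X]) (f' : L[X]) (h : f.map ψ = f') :
    HR K f →+* HR L f' where
  toFun z := ⟨z.re.map ψ, z.im.map ψ⟩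
  map_one' := by ext1 <;> simp [QuadraticAlgebra.re_one, QuadraticAlgebra.im_one]
  map_mul' x y := by
    subst h
    ext1 <;> simp
  map_zero' := by ext1 <;> simp
  map_add' x y := by ext1 <;> simp

theorem mapHR_apply (ψ : K →+* L) (f : K[X]) (f' : L[X]) (h : f.map ψ = f') (z : HR K f) :
    mapHR ψ f f' h z = ⟨z.re.map ψ, z.im.map ψ⟩ := rfl

theorem mapHR_injective (ψ : K →+* L) (f : K[X]) (f' : L[X]) (h : f.map ψ = f') :
    Function.Injective (mapHR ψ f f' h) := by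
  intro x y hxy
  rw [mapHR_apply, mapHR_apply] at hxy
  have h1 := congrArg QuadraticAlgebra.re hxy
  have h2 := congrArg QuadraticAlgebra.im hxy
  simp only at h1 h2
  ext1
  · exact Polynomial.map_injective ψ ψ.injective h1
  · exact Polynomial.map_injective ψ ψ.injective h2

end hom

/-! ## ideals fixed up to principal ideals -/

section fx

variable {R S : Type u} [CommRing R] [IsDomain R] [CommRing S] [IsDomain S] (Φ Ψ : R →+* S)

/-- the two extensions of `I` to `S` are in the same class -/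
def Fx (I : Ideal R) : Prop := ∃ z1 z2 : S, z1 ≠ 0 ∧ z2 ≠ 0 ∧
  Ideal.span {z1} * I.map Φ = Ideal.span {z2} * I.map Ψ

variable {Φ Ψ}

omit [IsDomain R] in
theorem Fx.one : Fx Φ Ψ (⊤ : Ideal R) :=
  ⟨1, 1, one_ne_zero, one_ne_zero, by rw [Ideal.map_top, Ideal.map_top]⟩

omit [IsDomain R] in
theorem Fx.mul {I J : Ideal R} (hI : Fx Φ Ψ I) (hJ : Fx Φ Ψ J) : Fx Φ Ψ (I * J) := by
  obtain ⟨z1, z2, h1, h2, h⟩ := hI
  obtain ⟨w1, w2, g1, g2, g⟩ := hJ
  refine ⟨z1 * w1, z2 * w2, mul_ne_zero h1 g1, mul_ne_zero h2 g2, ?_⟩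
  rw [Ideal.map_mul, Ideal.map_mul, ← Ideal.span_singleton_mul_span_singleton,
    ← Ideal.span_singleton_mul_span_singleton, mul_mul_mul_comm, h, g, mul_mul_mul_comm]

omit [IsDomain R] [IsDomain S] in
theorem map_sp (Θ : R →+* S) (x : R) (I : Ideal R) :
    (Ideal.span {x} * I).map Θ = Ideal.span {Θ x} * I.map Θ := by
  rw [Ideal.map_mul, Ideal.map_span, Set.image_singleton]

omit [IsDomain R] in
theorem Fx.of_rel (hΦ : Function.Injective Φ) (hΨ : Function.Injective Ψ) {I J : Ideal R}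
    (hJ : Fx Φ Ψ J) {x y : R} (hx : x ≠ 0) (hy : y ≠ 0)
    (h : Ideal.span {x} * I = Ideal.span {y} * J) : Fx Φ Ψ I := by
  obtain ⟨z1, z2, h1, h2, h3⟩ := hJ
  have e1 := congrArg (Ideal.map Φ) h
  have e2 := congrArg (Ideal.map Ψ) h
  rw [map_sp, map_sp] at e1 e2
  have nz : ∀ {Θ : R →+* S}, Function.Injective Θ → ∀ {x : R}, x ≠ 0 → Θ x ≠ 0 :=
    fun hT x hx => (map_ne_zero_iff _ hT).2 hx
  refine ⟨Ψ y * z1 * Φ x, Φ y * z2 * Ψ x, mul_ne_zero (mul_ne_zero (nz hΨ hy) h1) (nz hΦ hx),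
    mul_ne_zero (mul_ne_zero (nz hΦ hy) h2) (nz hΨ hx), ?_⟩
  simp only [← Ideal.span_singleton_mul_span_singleton]
  calc Ideal.span {Ψ y} * Ideal.span {z1} * Ideal.span {Φ x} * I.map Φ
      = Ideal.span {Ψ y} * Ideal.span {z1} * (Ideal.span {Φ x} * I.map Φ) := by ring
    _ = Ideal.span {Ψ y} * Ideal.span {z1} * (Ideal.span {Φ y} * J.map Φ) := by rw [e1]
    _ = Ideal.span {Ψ y} * Ideal.span {Φ y} * (Ideal.span {z1} * J.map Φ) := by ring
    _ = Ideal.span {Ψ y} * Ideal.span {Φ y} * (Ideal.span {z2} * J.map Ψ) := by rw [h3]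
    _ = Ideal.span {Φ y} * Ideal.span {z2} * (Ideal.span {Ψ y} * J.map Ψ) := by ring
    _ = Ideal.span {Φ y} * Ideal.span {z2} * (Ideal.span {Ψ x} * I.map Ψ) := by rw [e2]
    _ = Ideal.span {Φ y} * Ideal.span {z2} * Ideal.span {Ψ x} * I.map Ψ := by ring

omit [IsDomain R] in
theorem Fx.inv (hΦ : Function.Injective Φ) (hΨ : Function.Injective Ψ) {I J : Ideal R}
    (hI : Fx Φ Ψ I) {x : R} (hx : x ≠ 0) (h : J * I = Ideal.span {x}) : Fx Φ Ψ J := by
  obtain ⟨z1, z2, h1, h2, h3⟩ := hI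
  have e1 := congrArg (Ideal.map Φ) h
  have e2 := congrArg (Ideal.map Ψ) h
  rw [Ideal.map_mul, Ideal.map_span, Set.image_singleton] at e1 e2
  refine ⟨z2 * Ψ x, z1 * Φ x, mul_ne_zero h2 ((map_ne_zero_iff _ hΨ).2 hx),
    mul_ne_zero h1 ((map_ne_zero_iff _ hΦ).2 hx), ?_⟩
  simp only [← Ideal.span_singleton_mul_span_singleton]
  rw [← e1, ← e2]
  calc Ideal.span {z2} * (J.map Ψ * I.map Ψ) * J.map Φ
      = (Ideal.span {z2} * I.map Ψ) * (J.map Ψ * J.map Φ) := by ring
    _ = (Ideal.span {z1} * I.map Φ) * (J.map Ψ * J.map Φ) := by rw [h3]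
    _ = Ideal.span {z1} * (J.map Φ * I.map Φ) * J.map Ψ := by ring

/-- every class has an integral representative -/
theorem exists_rep (c : ClassGroup R) :
    ∃ (U : (FractionalIdeal R⁰ (FractionRing R))ˣ) (J : Ideal R),
      (U : FractionalIdeal R⁰ (FractionRing R)) = J ∧ ClassGroup.mk (FractionRing R) U = c := by
  refine ClassGroup.induction (R := R) (FractionRing R) (P := fun c =>
    ∃ (U : (FractionalIdeal R⁰ (FractionRing R))ˣ) (J : Ideal R),
      (U : FractionalIdeal R⁰ (FractionRing R)) = J ∧ ClassGroup.mk (FractionRing R) U = c)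
    (fun I => ?_) c
  have hu : IsUnit ((I : FractionalIdeal R⁰ (FractionRing R)).num :
      FractionalIdeal R⁰ (FractionRing R)) := FractionalIdeal.isUnit_num.2 I.isUnit
  refine ⟨hu.unit, (I : FractionalIdeal R⁰ (FractionRing R)).num, rfl, ?_⟩
  rw [eq_comm, ClassGroup.mk_eq_mk]
  have fd_ne_zero : (algebraMap R (FractionRing R)) I.1.den ≠ 0 :=
    IsFractionRing.to_map_ne_zero_of_mem_nonZeroDivisors (SetLike.coe_mem _)
  refine ⟨Units.mk0 (algebraMap R _ I.1.den) fd_ne_zero, ?_⟩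
  apply Units.ext
  rw [mul_comm, Units.val_mul, coe_toPrincipalIdeal, Units.val_mk0]
  exact FractionalIdeal.den_mul_self_eq_num' R⁰ (FractionRing R) I

/-- `Fx` on a class -/
def FxC (Φ Ψ : R →+* S) (c : ClassGroup R) : Prop :=
  ∃ (U : (FractionalIdeal R⁰ (FractionRing R))ˣ) (J : Ideal R),
      (U : FractionalIdeal R⁰ (FractionRing R)) = J ∧ ClassGroup.mk (FractionRing R) U = c ∧
      Fx Φ Ψ J

theorem fxC_closure (hΦ : Function.Injective Φ) (hΨ : Function.Injective Ψ)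
    (T : Set (Additive (ClassGroup R))) (hT : ∀ t ∈ T, FxC Φ Ψ (Additive.toMul t))
    (c : Additive (ClassGroup R)) (hc : c ∈ AddSubgroup.closure T) :
    FxC Φ Ψ (Additive.toMul c) := by
  induction hc using AddSubgroup.closure_induction with
  | mem x hx => exact hT x hx
  | zero => exact ⟨1, ⊤, by simp, by simp, Fx.one⟩
  | add x y _ _ hx hy =>
    obtain ⟨U, J, h1, h2, h3⟩ := hx
    obtain ⟨U', J', h1', h2', h3'⟩ := hy
    refine ⟨U * U', J * J', ?_, ?_, h3.mul h3'⟩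
    · rw [Units.val_mul, h1, h1', FractionalIdeal.coeIdeal_mul]
    · rw [map_mul, h2, h2', toMul_add]
  | neg x _ hx =>
    obtain ⟨U, J, h1, h2, h3⟩ := hx
    obtain ⟨U', J', h1', h2'⟩ := exists_rep (Additive.toMul (-x))
    refine ⟨U', J', h1', h2', ?_⟩
    have h4 : ClassGroup.mk (FractionRing R) (U' * U) = 1 := by
      rw [map_mul, h2, h2', toMul_neg, inv_mul_cancel]
    have h5 : ((U' * U : (FractionalIdeal R⁰ (FractionRing R))ˣ) :
        FractionalIdeal R⁰ (FractionRing R)) = ((J' * J : Ideal R) :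
        FractionalIdeal R⁰ (FractionRing R)) := by
      rw [Units.val_mul, h1, h1', FractionalIdeal.coeIdeal_mul]
    obtain ⟨x, hx0, hx⟩ := (ClassGroup.mk_eq_one_of_coe_ideal h5).1 h4
    exact h3.inv hΦ hΨ hx0 hx

theorem fx_pow_of_mem (hΦ : Function.Injective Φ) (hΨ : Function.Injective Ψ)
    (U : (FractionalIdeal R⁰ (FractionRing R))ˣ) (I : Ideal R)
    (hU : (U : FractionalIdeal R⁰ (FractionRing R)) = I) (N : ℕ)
    (h : FxC Φ Ψ (ClassGroup.mk (FractionRing R) U ^ N)) : Fx Φ Ψ (I ^ N) := by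
  obtain ⟨U', J, h1, h2, h3⟩ := h
  rw [← map_pow] at h2
  have h4 : ((U ^ N : (FractionalIdeal R⁰ (FractionRing R))ˣ) :
        FractionalIdeal R⁰ (FractionRing R)) = ((I ^ N : Ideal R) :
        FractionalIdeal R⁰ (FractionRing R)) := by
    rw [Units.val_pow_eq_pow_val, hU, FractionalIdeal.coeIdeal_pow]
  obtain ⟨x, y, hx, hy, hxy⟩ := (ClassGroup.mk_eq_mk_of_coe_ideal h1 h4).1 h2
  exact h3.of_rel hΦ hΨ hy hx hxy.symm

omit [IsDomain R] in
theorem principal_of (I : Ideal R) (N : ℕ) (hN : Fx Φ Ψ (I ^ N))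
    (s : S) (hs : I.map Φ * I.map Ψ = Ideal.span {s}) : ((I.map Φ) ^ (2 * N)).IsPrincipal := by
  obtain ⟨z1, z2, h1, h2, h3⟩ := hN
  rw [Ideal.map_pow, Ideal.map_pow] at h3
  generalize hA : I.map Φ = A at *
  generalize hB : I.map Ψ = B at *
  have h4 : Ideal.span {z1} * A ^ (2 * N) = Ideal.span {z2 * s ^ N} := by
    calc Ideal.span {z1} * A ^ (2 * N) = (Ideal.span {z1} * A ^ N) * A ^ N := by ring
      _ = (Ideal.span {z2} * B ^ N) * A ^ N := by rw [h3]
      _ = Ideal.span {z2} * (A * B) ^ N := by ring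
      _ = Ideal.span {z2} * Ideal.span {s ^ N} := by rw [hs, Ideal.span_singleton_pow]
      _ = _ := by rw [Ideal.span_singleton_mul_span_singleton]
  have h5 : z2 * s ^ N ∈ Ideal.span {z1} := by
    have : z2 * s ^ N ∈ Ideal.span {z1} * A ^ (2 * N) := by
      rw [h4]; exact Ideal.mem_span_singleton_self _
    have h6 : Ideal.span {z1} * A ^ (2 * N) ≤ Ideal.span {z1} := Ideal.mul_le_left
    exact h6 this
  obtain ⟨h, hh⟩ := Ideal.mem_span_singleton.1 h5
  rw [hh, ← Ideal.span_singleton_mul_span_singleton, Ideal.span_singleton_mul_right_inj h1] at h4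
  exact ⟨⟨h, h4⟩⟩

end fx

/-! ## the ideal `(u, y - w)` -/

theorem II_mul {k : Type u} [Field k] [CharZero k] (f u w : k[X]) (h : u ∣ w ^ 2 - f)
    (hc : IsCoprime u w) : II f u w * II f u (-w) = Ideal.span {(⟨u, 0⟩ : HR k f)} := by
  rw [II, II, Ideal.span_pair_mul_span_pair, neg_neg]
  apply le_antisymm
  · rw [Ideal.span_le]
    obtain ⟨q, hq⟩ := h
    rintro z (rfl | rfl | rfl | rfl)
    · exact Ideal.mem_span_singleton.2 ⟨_, rfl⟩
    · exact Ideal.mem_span_singleton.2 ⟨_, rfl⟩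
    · exact Ideal.mem_span_singleton.2 ⟨_, mul_comm _ _⟩
    · refine Ideal.mem_span_singleton.2 ⟨⟨-q, 0⟩, ?_⟩
      ext1
      · simp
        linear_combination -hq
      · simp
  · rw [Ideal.span_singleton_le_iff_mem]
    obtain ⟨a, b, hab⟩ := hc
    have e : (⟨u, 0⟩ : HR k f) = ⟨a, 0⟩ * (⟨u, 0⟩ * ⟨u, 0⟩) +
        ⟨C 2⁻¹ * b, 0⟩ * (⟨u, 0⟩ * ⟨w, 1⟩) - ⟨C 2⁻¹ * b, 0⟩ * (⟨-w, 1⟩ * ⟨u, 0⟩) := by
      have h2 : (C 2⁻¹ : k[X]) * 2 = 1 := by
        rw [show (2 : k[X]) = C 2 by rfl, ← C_mul]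
        simp
      ext1
      · simp
        linear_combination (-u) * hab + (-(b * w * u)) * h2
      · simp
    suffices H : ∀ z : HR k f, z = ⟨u, 0⟩ → z ∈ Ideal.span {(⟨u, 0⟩ : HR k f) * ⟨u, 0⟩,
        ⟨u, 0⟩ * ⟨w, 1⟩, ⟨-w, 1⟩ * ⟨u, 0⟩, ⟨-w, 1⟩ * ⟨w, 1⟩} from H _ rfl
    intro z hz
    rw [show z = _ from hz.trans e]
    refine sub_mem (add_mem ?_ ?_) ?_
    · exact Ideal.mul_mem_left _ _ (Ideal.subset_span (Or.inl rfl))
    · exact Ideal.mul_mem_left _ _ (Ideal.subset_span (Or.inr (Or.inl rfl)))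
    · exact Ideal.mul_mem_left _ _ (Ideal.subset_span (Or.inr (Or.inr (Or.inl rfl))))

theorem II_map {K L : Type u} [Field K] [Field L] (ψ : K →+* L) (f : K[X]) (f' : L[X])
    (h : f.map ψ = f') (u w : K[X]) (u' w' : L[X]) (hu : u.map ψ = u') (hw : w.map ψ = w') :
    (II f u w).map (mapHR ψ f f' h) = II f' u' w' := by
  subst hu hw
  rw [II, II, Ideal.map_span, Set.image_pair, mapHR_apply, mapHR_apply]
  simp

theorem mapHR_congr {K L : Type u} [Field K] [Field L] (ψ ψ' : K →+* L) (f : K[X]) (f' : L[X])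
    (h : f.map ψ = f') (h' : f.map ψ' = f') (g : HR K f)
    (hg : ∀ t, t ∈ g.re.coeffs ∨ t ∈ g.im.coeffs → ψ' t = ψ t) :
    mapHR ψ f f' h g = mapHR ψ' f f' h' g := by
  have key : ∀ p : K[X], (∀ t ∈ p.coeffs, ψ' t = ψ t) → p.map ψ = p.map ψ' := by
    intro p hp
    ext i
    rw [coeff_map, coeff_map]
    by_cases hi : p.coeff i = 0
    · rw [hi, map_zero, map_zero]
    · exact (hp _ (coeff_mem_coeffs hi)).symm
  rw [mapHR_apply, mapHR_apply,
    key _ (fun t ht => hg t (Or.inl ht)), key _ (fun t ht => hg t (Or.inr ht))]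

/-- the ideal `(u, y - w)` is invertible -/
theorem II_unit {k : Type u} [Field k] [CharZero k] (f u w : k[X]) [IsDomain (HR k f)]
    (hu : u ≠ 0) (h : u ∣ w ^ 2 - f) (hc : IsCoprime u w) :
    ∃ U : (FractionalIdeal (HR k f)⁰ (FractionRing (HR k f)))ˣ,
      (U : FractionalIdeal (HR k f)⁰ (FractionRing (HR k f))) = II f u w := by
  have h0 : (⟨u, 0⟩ : HR k f) ≠ 0 := by
    intro h0
    exact hu (congrArg QuadraticAlgebra.re h0)
  have h1 : algebraMap (HR k f) (FractionRing (HR k f)) ⟨u, 0⟩ ≠ 0 :=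
    (map_ne_zero_iff _ (IsFractionRing.injective _ _)).2 h0
  have h2 : ((II f u w : Ideal (HR k f)) : FractionalIdeal (HR k f)⁰ (FractionRing (HR k f))) *
      (((II f u (-w) : Ideal (HR k f)) : FractionalIdeal (HR k f)⁰ (FractionRing (HR k f))) *
        FractionalIdeal.spanSingleton (HR k f)⁰
          (algebraMap (HR k f) (FractionRing (HR k f)) ⟨u, 0⟩)⁻¹) = 1 := by
    rw [← mul_assoc, ← FractionalIdeal.coeIdeal_mul, II_mul f u w h hc,
      FractionalIdeal.coeIdeal_span_singleton, FractionalIdeal.spanSingleton_mul_spanSingleton,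
      mul_inv_cancel₀ h1, FractionalIdeal.spanSingleton_one]
  exact ⟨Units.mkOfMulEqOne _ _ h2, rfl⟩

open scoped TensorProduct in
theorem CL : T_CL.{u} := by
  classical
  intro K L _ _ _ _ φ f _ _ hfin
  obtain ⟨T0, hT0⟩ := Pool.Agent.H23.exists_finset_of_finite _ hfin
  have hrep : ∀ t : Additive (ClassGroup (HR K f)), ∃ (U : (FractionalIdeal (HR K f)⁰
      (FractionRing (HR K f)))ˣ) (J : Ideal (HR K f)),
      (U : FractionalIdeal (HR K f)⁰ (FractionRing (HR K f))) = J ∧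
      ClassGroup.mk (FractionRing (HR K f)) U = Additive.toMul t :=
    fun t => exists_rep (Additive.toMul t)
  choose U J hUJ hU using hrep
  have hnoeth : IsNoetherianRing (HR K f) := IsNoetherianRing.of_finite K[X] (HR K f)
  have hs : ∀ t, ∃ s : Finset (HR K f), Ideal.span (s : Set (HR K f)) = J t :=
    fun t => hnoeth.noetherian (J t)
  choose s hs using hs
  refine ⟨T0.biUnion fun t => (s t).biUnion fun g => g.re.coeffs ∪ g.im.coeffs,
    fun u w hu hdvd hcop τ hT hf huτ hwτ => ?_⟩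
  have hΨf : f.map ((τ : L →+* L).comp φ) = f.map φ := by
    ext i
    simp only [coeff_map, RingHom.comp_apply]
    exact hf i
  let Φ := mapHR φ f (f.map φ) rfl
  let Ψ := mapHR ((τ : L →+* L).comp φ) f (f.map φ) hΨf
  have hΦi : Function.Injective Φ := mapHR_injective _ _ _ _
  have hΨi : Function.Injective Ψ := mapHR_injective _ _ _ _
  have hmem : ∀ t ∈ (T0 : Set (Additive (ClassGroup (HR K f)))),
      FxC Φ Ψ (Additive.toMul t) := by
    intro t ht
    refine ⟨U t, J t, hUJ t, hU t, 1, 1, one_ne_zero, one_ne_zero, ?_⟩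
    congr 1
    rw [← hs t, Ideal.map_span, Ideal.map_span]
    congr 1
    apply Set.image_congr
    intro g hg
    apply mapHR_congr
    intro c hc
    exact hT c (Finset.mem_biUnion.2 ⟨t, ht, Finset.mem_biUnion.2 ⟨g, hg, Finset.mem_union.2 hc⟩⟩)
  obtain ⟨UI, hUI⟩ := II_unit f u w hu hdvd hcop
  obtain ⟨N, hN0, hN⟩ := hT0 (Additive.ofMul (ClassGroup.mk _ UI))
  have h1 := fxC_closure hΦi hΨi _ hmem _ hN
  rw [toMul_nsmul, toMul_ofMul] at h1
  have h2 := fx_pow_of_mem hΦi hΨi UI (II f u w) hUI N h1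
  have e1 : (II f u w).map Φ = II (f.map φ) (u.map φ) (w.map φ) :=
    II_map φ f _ rfl u w _ _ rfl rfl
  have e2 : (II f u w).map Ψ = II (f.map φ) (u.map φ) (-(w.map φ)) := by
    refine II_map _ f _ hΨf u w _ _ ?_ ?_
    · ext i
      simp only [coeff_map, RingHom.comp_apply]
      exact huτ i
    · ext i
      simp only [coeff_map, RingHom.comp_apply, coeff_neg]
      exact hwτ i
  have e3 : (II f u w).map Φ * (II f u w).map Ψ =
      Ideal.span {(⟨u.map φ, 0⟩ : HR L (f.map φ))} := by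
    rw [e1, e2]
    refine II_mul _ _ _ ?_ ?_
    · have := Polynomial.map_dvd φ hdvd
      simpa using this
    · exact hcop.map (Polynomial.mapRingHom φ)
  have h3 := principal_of (II f u w) N h2 _ e3
  rw [e1] at h3
  exact ⟨2 * N, by omega, h3⟩

end Pool.Agent.H62.HE
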